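import Pool.Agent.Run7.h9.BS.Fin2

/-!
# The products of Birch and Swinnerton-Dyer find the number of the marked points of almost all members
of a family

`K` is any number field and `f_t = F₀ + (∏ (X - x_i)) (t₀ X + t₁ + ∑ t_j P_j)` a family of monic
polynomials of degree `d ≥ 3` over the ring of integers with parameters `t₀, t₁, t_j`, all of whose curves
`C_t : y² = f_t(x)` pass through the given points `(x_i, y_i)`, `i < r`.  For `d = 3, 4` these are elliptic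
curves (for `d = 4` the two points at infinity are rational).  Let `ρ = r` if `d` is odd and `ρ = r + 1` if
it is even: this is the number of the marked points of the Jacobian (the classes of
`(x_i, y_i) - (x_i, -y_i)` and, in even degree, of the difference of the points at infinity).

Birch and Swinnerton-Dyer found their conjecture from the growth of the products
`B_Z(t) = ∏_{Nv ≤ Z} #C_t(k_v) / Nv` (good places), which for one curve is to be compared with the power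
`(log Z)^rank`.  Let `M_Z = ∏_{Nv ≤ Z} (1 - 1/Nv)⁻¹`, so `log M_Z = log log Z + O(1)`.  The theorem determines the
limit law of the products over the members with coordinates at most `H`:

1. if `H ≥ exp(Z^(1+θ))`: `B_Z(t)^κ` has the mean value `~ Ψ(κ) M_Z^(κ(ρ + 1/2) + κ²/2)`, for all complex `κ`,
   uniformly on compact sets, with an entire function `Ψ`, `Ψ(0) = 1`, which is positive at real points (in
   particular all moments);
2. if `H ≥ Z^C`, where `C` depends on the precision only, so for all `Z = H^(o(1))`: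
   `(log B_Z(t) - (ρ + 1/2) log M_Z) / √(log M_Z)` is normally distributed in the limit;
3. if `H ≥ Z^(C log M_Z)`: the inequality `|log B_Z(t) - (ρ + 1/2) log M_Z| ≥ a log M_Z` holds only for a
   proportion `O(M_Z^(-a²/2))` of the members;
4. `ρ` is the integer nearest to `log B_Z(t) / log M_Z - 1/2` for all members but a proportion
   `O((log M_Z)^(-k))`, for every `k`, if `H ≥ Z^C`, `C = C(k)`, and but a proportion `O(M_Z^(-1/8))` if
   `H ≥ Z^(C log M_Z)`.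

The additional `1/2` is an effect of the range `Z = H^(o(1))`: it is the contribution of the squares
of the traces, and for one fixed curve it is compensated for large `Z`.
-/

set_option autoImplicit false
open NumberField IsDedekindDomain Filter Topology

namespace Pool.Agent.Results.MP_ae0bd0_nt.BSDProductCentralLimit

open Run7.h876.HY Run7.h876.EN Run7.h9.BS

/-- **The law of the products of Birch and Swinnerton-Dyer in families with marked points.** -/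
theorem result (K : Type) [Field K] [NumberField K] (J : Type) [Fintype J] [DecidableEq J] (𝓕 : Family K J) :
    (∃ C : ℝ, ∀ Z : ℕ, 3 ≤ Z → |Real.log (zetaProd K Z) - Real.log (Real.log Z)| ≤ C) ∧
    (∀ (Z : ℕ) (t : Fin 2 ⊕ J → 𝓞 K), 0 < bsd Z (𝓕.member t)) ∧
    (∃ Ψ : ℂ → ℂ, Differentiable ℂ Ψ ∧ Ψ 0 = 1 ∧ (∀ x : ℝ, ∃ r : ℝ, 0 < r ∧ Ψ x = r) ∧
      ∀ (ι : Type) [Fintype ι] [DecidableEq ι] (ω : Module.Basis ι ℤ (𝓞 K)),
      ∀ R : ℝ, 0 ≤ R → ∀ θ : ℝ, 0 < θ → ∀ ε : ℝ, 0 < ε → ∃ Z₀ : ℕ, ∀ Z : ℕ, Z₀ ≤ Z →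
        ∀ H : Fin 2 ⊕ J → ℕ, (∀ j, Real.exp ((Z : ℝ) ^ (1 + θ)) ≤ H j) → ∀ κ : ℂ, ‖κ‖ ≤ R →
        ‖mean ω H 𝓕.smooth (fun t => (bsd Z (𝓕.member t) : ℂ) ^ κ) *
          (zetaProd K Z : ℂ) ^ (-(κ * (𝓕.rk + 1 / 2) + κ ^ 2 / 2)) - Ψ κ‖ ≤ ε) ∧
    ∀ (ι : Type) [Fintype ι] [DecidableEq ι] (ω : Module.Basis ι ℤ (𝓞 K)),
      (∀ a : ℝ, ∀ ε : ℝ, 0 < ε → ∃ C Z₀ : ℕ, ∀ Z : ℕ, Z₀ ≤ Z →
        ∀ H : Fin 2 ⊕ J → ℕ, (∀ j, Z ^ C ≤ H j) →
        |prop ω H 𝓕.smooth (fun t => Real.log (bsd Z (𝓕.member t)) ≤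
          (𝓕.rk + 1 / 2) * Real.log (zetaProd K Z) + a * Real.sqrt (Real.log (zetaProd K Z))) - Phi a| ≤ ε) ∧
      (∀ a : ℝ, 0 < a → ∃ C : ℝ, 0 < C ∧ ∃ Z₀ : ℕ, ∀ Z : ℕ, Z₀ ≤ Z →
        ∀ H : Fin 2 ⊕ J → ℕ, (∀ j, (Z : ℝ) ^ (C * Real.log (zetaProd K Z)) ≤ H j) →
        prop ω H 𝓕.smooth (fun t => a * Real.log (zetaProd K Z) ≤
          |Real.log (bsd Z (𝓕.member t)) - (𝓕.rk + 1 / 2) * Real.log (zetaProd K Z)|) ≤
            C * zetaProd K Z ^ (-(a ^ 2 / 2))) ∧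
      (∃ C : ℝ, 0 < C ∧ ∃ Z₀ : ℕ, ∀ Z : ℕ, Z₀ ≤ Z →
        ∀ H : Fin 2 ⊕ J → ℕ, (∀ j, (Z : ℝ) ^ (C * Real.log (zetaProd K Z)) ≤ H j) →
        prop ω H 𝓕.smooth (fun t =>
          round (Real.log (bsd Z (𝓕.member t)) / Real.log (zetaProd K Z) - 1 / 2) ≠ (𝓕.rk : ℤ)) ≤
            C * zetaProd K Z ^ (-(1 / 8 : ℝ))) ∧
      ∀ k : ℕ, ∃ C : ℕ, ∃ B : ℝ, 0 < B ∧ ∃ Z₀ : ℕ, ∀ Z : ℕ, Z₀ ≤ Z →
        ∀ H : Fin 2 ⊕ J → ℕ, (∀ j, Z ^ C ≤ H j) →
        prop ω H 𝓕.smooth (fun t =>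
          round (Real.log (bsd Z (𝓕.member t)) / Real.log (zetaProd K Z) - 1 / 2) ≠ (𝓕.rk : ℤ)) ≤
            B / Real.log (zetaProd K Z) ^ k :=
  ⟨mertens_zeta K, fun Z t => bsd_pos 𝓕 Z t,
    ⟨(bsdData 𝓕).Psi, (bsdData 𝓕).Psi_diff, (bsdData 𝓕).Psi_zero, (bsdData 𝓕).Psi_real,
      fun _ _ _ ω _ hR _ hθ _ hε => fin_mod 𝓕 ω hR hθ hε⟩,
    fun _ _ _ ω => ⟨fun a _ hε => bs_clt2 𝓕 ω a hε, fun _ ha => bs_tail2 𝓕 ω ha, bs_round2 𝓕 ω,
      fun k => bs_round_pow 𝓕 ω k⟩⟩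

end Pool.Agent.Results.MP_ae0bd0_nt.BSDProductCentralLimit
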