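import Pool.Agent.Run7.h9.TP.Fin2

/-!
# The central Euler products of the odd cohomology of products of curves find the number of the marked
algebraic cycles of almost all members of a family

`K` is any number field, `e ≥ 1`, and `C_i(t)`, `i ∈ I`, `|I| = e`, are the members of `e` independent families
of hyperelliptic curves `y² = f_t(x)` over `K` of any genera `≥ 1` with marked points
(`f_t = F₀ + (∏ (X - x_i)) (t₀ X + t₁ + ∑ t_j P_j)`, all of the curves pass through the points `(x_i, y_i)`).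
`X_t = ∏ C_i(t)` is their product and `j` is any odd degree, `1 ≤ j ≤ 2e - 1`.

For the motive `H^j(X_t)` Beilinson's conjecture compares the order of vanishing of the L-function at
`s = (j+1)/2` with the rank of the Chow group of the homologically trivial cycles of codimension `(j+1)/2`.
The families have
`ρ_j = binomial(e-1, (j-1)/2) ∑ ρ(i)` marked classes there: for each curve `C_i`, each of its `ρ(i)` marked
points of the Jacobian and each set of `(j-1)/2` other factors one, the product of the divisor class of degree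
`0` on `C_i` with points on these factors.

Let `B_Z(t) = ∏_{Nv ≤ Z} det(1 - Frob_v Nv^(-(j+1)/2) | H^j(X_t))` be the inverse of the part `Nv ≤ Z` of the
Euler product at the central point (for `e = j = 1` this is the product `∏ #J_t(k_v) / Nv^g` of the numbers of
the points of the Jacobian), which for one variety is to be compared with `(log Z)^rank`.
Let `M_Z = ∏_{Nv ≤ Z} (1 - 1/Nv)⁻¹`, `δ = (∑_s binomial(e, s) mult(s)) / 2` and
`V = ∑_s binomial(e, s) mult(s)²`, where `mult(s) = binomial(e-s, (j-s)/2)`, `s` odd, `s ≤ j`, is the multiplicity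
of the Kuenneth component `⊗_{i ∈ S} H¹(C_i)`, `|S| = s`, in `H^j`; `log M_Z = log log Z + O(1)`.  The theorem
determines the limit law of `B_Z(t)` over the members with coordinates at most `H`:

1. if `H ≥ exp(Z^(1+θ))`: `B_Z(t)^κ` has the mean value `~ Ψ(κ) M_Z^(κ(ρ_j + δ) + κ² V/2)`, for all complex `κ`,
   uniformly on compact sets, with an entire function `Ψ`, `Ψ(0) = 1`, which is positive at real points (in
   particular all moments);
2. if `H ≥ Z^C`, where `C` depends on the precision only, so for all `Z = H^(o(1))`: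
   `(log B_Z(t) - (ρ_j + δ) log M_Z) / √(V log M_Z)` is normally distributed in the limit;
3. if `H ≥ Z^(C log M_Z)`: the inequality `|log B_Z(t) - (ρ_j + δ) log M_Z| ≥ a log M_Z` holds only for a
   proportion `O(M_Z^(-a²/(2V)))` of the members;
4. `ρ_j` is the integer nearest to `log B_Z(t) / log M_Z - δ` for all members but a proportion
   `O((log M_Z)^(-k))`, for every `k`, if `H ≥ Z^C`, `C = C(k)`, and but a proportion `O(M_Z^(-1/(8V)))` if
   `H ≥ Z^(C log M_Z)`.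

The shift `δ` is an effect of the range `Z = H^(o(1))`: it is the contribution of the squares
of the Frobenius elements, and for one fixed variety it is compensated for large `Z`.
-/

set_option autoImplicit false
open NumberField IsDedekindDomain Filter Topology

namespace Pool.Agent.Results.MP_29b22a_nt.CentralLimitOddCohomology

open Run7.h876.HY Run7.h876.EN Run7.h9.BS Run7.h9.TP

/-- **The law of the central Euler products of the odd cohomology of products of curves in families with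
marked points.** -/
theorem result (K : Type) [Field K] [NumberField K] (I : Type) [Fintype I] [DecidableEq I] (J : I → Type)
    [∀ i, Fintype (J i)] [∀ i, DecidableEq (J i)] (𝓕 : ∀ i, Family K (J i)) (j : ℕ) (hj : Odd j)
    (hj2 : j < 2 * Fintype.card I) :
    (∃ C : ℝ, ∀ Z : ℕ, 3 ≤ Z → |Real.log (zetaProd K Z) - Real.log (Real.log Z)| ≤ C) ∧
    0 < vari (Fintype.card I) j ∧
    (∀ (Z : ℕ) (t : (Σ i, Fin 2 ⊕ J i) → 𝓞 K), 0 < centralProduct Z (members 𝓕 t) j) ∧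
    (∃ Ψ : ℂ → ℂ, Differentiable ℂ Ψ ∧ Ψ 0 = 1 ∧ (∀ x : ℝ, ∃ r : ℝ, 0 < r ∧ Ψ x = r) ∧
      ∀ (ι : Type) [Fintype ι] [DecidableEq ι] (ω : Module.Basis ι ℤ (𝓞 K)),
      ∀ R : ℝ, 0 ≤ R → ∀ θ : ℝ, 0 < θ → ∀ ε : ℝ, 0 < ε → ∃ Z₀ : ℕ, ∀ Z : ℕ, Z₀ ≤ Z →
        ∀ H : (Σ i, Fin 2 ⊕ J i) → ℕ, (∀ j, Real.exp ((Z : ℝ) ^ (1 + θ)) ≤ H j) → ∀ κ : ℂ, ‖κ‖ ≤ R →
        ‖mean ω H (smoothAll 𝓕) (fun t => (centralProduct Z (members 𝓕 t) j : ℂ) ^ κ) *
          (zetaProd K Z : ℂ) ^ (-(κ * (rank 𝓕 j + comps (Fintype.card I) j / 2) +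
            κ ^ 2 * vari (Fintype.card I) j / 2)) - Ψ κ‖ ≤ ε) ∧
    ∀ (ι : Type) [Fintype ι] [DecidableEq ι] (ω : Module.Basis ι ℤ (𝓞 K)),
      (∀ a : ℝ, ∀ ε : ℝ, 0 < ε → ∃ C Z₀ : ℕ, ∀ Z : ℕ, Z₀ ≤ Z →
        ∀ H : (Σ i, Fin 2 ⊕ J i) → ℕ, (∀ j, Z ^ C ≤ H j) →
        |prop ω H (smoothAll 𝓕) (fun t => Real.log (centralProduct Z (members 𝓕 t) j) ≤
          (rank 𝓕 j + comps (Fintype.card I) j / 2) * Real.log (zetaProd K Z) +
            a * Real.sqrt (vari (Fintype.card I) j * Real.log (zetaProd K Z))) - Phi a| ≤ ε) ∧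
      (∀ a : ℝ, 0 < a → ∃ C : ℝ, 0 < C ∧ ∃ Z₀ : ℕ, ∀ Z : ℕ, Z₀ ≤ Z →
        ∀ H : (Σ i, Fin 2 ⊕ J i) → ℕ, (∀ j, (Z : ℝ) ^ (C * Real.log (zetaProd K Z)) ≤ H j) →
        prop ω H (smoothAll 𝓕) (fun t => a * Real.log (zetaProd K Z) ≤
          |Real.log (centralProduct Z (members 𝓕 t) j) -
            (rank 𝓕 j + comps (Fintype.card I) j / 2) * Real.log (zetaProd K Z)|) ≤
          C * zetaProd K Z ^ (-(a ^ 2 / (2 * vari (Fintype.card I) j) : ℝ))) ∧
      (∃ C : ℝ, 0 < C ∧ ∃ Z₀ : ℕ, ∀ Z : ℕ, Z₀ ≤ Z →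
        ∀ H : (Σ i, Fin 2 ⊕ J i) → ℕ, (∀ j, (Z : ℝ) ^ (C * Real.log (zetaProd K Z)) ≤ H j) →
        prop ω H (smoothAll 𝓕) (fun t =>
          round (Real.log (centralProduct Z (members 𝓕 t) j) / Real.log (zetaProd K Z) -
            comps (Fintype.card I) j / 2) ≠ (rank 𝓕 j : ℤ)) ≤
          C * zetaProd K Z ^ (-(1 / (8 * vari (Fintype.card I) j)) : ℝ)) ∧
      ∀ k : ℕ, ∃ C : ℕ, ∃ B : ℝ, 0 < B ∧ ∃ Z₀ : ℕ, ∀ Z : ℕ, Z₀ ≤ Z →
        ∀ H : (Σ i, Fin 2 ⊕ J i) → ℕ, (∀ j, Z ^ C ≤ H j) →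
        prop ω H (smoothAll 𝓕) (fun t =>
          round (Real.log (centralProduct Z (members 𝓕 t) j) / Real.log (zetaProd K Z) -
            comps (Fintype.card I) j / 2) ≠ (rank 𝓕 j : ℤ)) ≤ B / Real.log (zetaProd K Z) ^ k :=
  ⟨mertens_zeta K, vari_pos j hj hj2, fun Z t => central_pos 𝓕 j hj hj2 Z t,
    ⟨(tpData 𝓕 j hj hj2).Psi, (tpData 𝓕 j hj hj2).Psi_diff, (tpData 𝓕 j hj hj2).Psi_zero, (tpData 𝓕 j hj hj2).Psi_real,
      fun _ _ _ ω _ hR _ hθ _ hε => tp_mod 𝓕 j hj hj2 ω hR hθ hε⟩,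
    fun _ _ _ ω => ⟨fun a _ hε => tp_clt2 𝓕 j hj hj2 ω a hε, fun _ ha => tp_tail2 𝓕 j hj hj2 ω ha,
      tp_round2 𝓕 j hj hj2 ω, fun k => tp_round_pow 𝓕 j hj hj2 ω k⟩⟩

end Pool.Agent.Results.MP_29b22a_nt.CentralLimitOddCohomology
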